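import Pool.Agent.Helper15.T6.Stmts

set_option autoImplicit false

/-!
MP_2f9829_co, module T6 TRP: the traces of the powers of the vertex matrix at the products, all degrees.
-/

open Finset

namespace Pool.Agent.Helper85.T6

open Pool.Agent.Helper15.T6

/-! ### Tensor products of matrices -/

/-- Reindexing: a function on the replicas is a pair of values for each pair of replicas. -/
def ee {K : ℕ} {J : Type} (A : Type) (φ : Fin K × Fin 2 ≃ J) : (J → A) ≃ (Fin K → A × A) :=
  ((Equiv.arrowCongr φ.symm (Equiv.refl A)).trans (Equiv.curry (Fin K) (Fin 2) A)).trans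
    (Equiv.piCongrRight (fun _ => finTwoArrowEquiv A))

theorem ee_apply {K : ℕ} {J : Type} {A : Type} (φ : Fin K × Fin 2 ≃ J) (a : J → A) (p : Fin K) :
    ee A φ a p = (a (φ (p, 0)), a (φ (p, 1))) := rfl

theorem sum_prod_ee {K : ℕ} {J A : Type} [Fintype J] [DecidableEq J] [Fintype A]
    (φ : Fin K × Fin 2 ≃ J) (g : Fin K → A × A → ℝ) :
    ∑ a : J → A, ∏ p, g p (ee A φ a p) = ∏ p, ∑ z, g p z := by
  rw [Finset.prod_univ_sum, Fintype.piFinset_univ]
  exact Fintype.sum_equiv (ee A φ) _ _ (fun a => rfl)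

/-- The tensor product. -/
def tens {K d : ℕ} {J : Type} (φ : Fin K × Fin 2 ≃ J)
    (r : Fin K → Matrix (Fin d × Fin d) (Fin d × Fin d) ℝ) : Matrix (J → Fin d) (J → Fin d) ℝ :=
  fun a b => ∏ p, r p (ee (Fin d) φ a p) (ee (Fin d) φ b p)

theorem tens_pow {K d : ℕ} {J : Type} [Fintype J] [DecidableEq J] (φ : Fin K × Fin 2 ≃ J)
    (r : Fin K → Matrix (Fin d × Fin d) (Fin d × Fin d) ℝ) (n : ℕ) :
    (tens φ r) ^ n = tens φ (fun p => r p ^ n) := by
  induction n with
  | zero =>
    funext a b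
    simp only [pow_zero, tens, Matrix.one_apply]
    by_cases hab : a = b
    · subst hab
      simp
    · rw [if_neg hab]
      symm
      apply Finset.prod_eq_zero_iff.2
      by_contra hcon
      push Not at hcon
      apply hab
      apply (ee (Fin d) φ).injective
      funext p
      have := hcon p (mem_univ p)
      by_contra h
      exact this (if_neg h)
  | succ n ih =>
    rw [pow_succ, ih]
    funext a b
    rw [Matrix.mul_apply]
    simp only [tens, ← Finset.prod_mul_distrib]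
    rw [sum_prod_ee φ (fun p z => (r p ^ n) (ee (Fin d) φ a p) z * r p z (ee (Fin d) φ b p))]
    apply Finset.prod_congr rfl
    intro p _
    rw [pow_succ, Matrix.mul_apply]

theorem tens_trace {K d : ℕ} {J : Type} [Fintype J] [DecidableEq J] (φ : Fin K × Fin 2 ≃ J)
    (r : Fin K → Matrix (Fin d × Fin d) (Fin d × Fin d) ℝ) :
    (tens φ r).trace = ∏ p, (r p).trace := by
  simp only [Matrix.trace, Matrix.diag, tens]
  exact sum_prod_ee φ (fun p z => r p z z)

/-! ### The sign of a map -/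

theorem epsd_perm {d : ℕ} (π : Equiv.Perm (Fin d)) :
    epsd (⇑π) = ((Equiv.Perm.sign π : ℤˣ) : ℤ) := by
  unfold epsd
  rw [Finset.sum_eq_single π]
  · rw [if_pos rfl]
  · intro ρ _ hρ
    rw [if_neg]
    intro h
    exact hρ (Equiv.ext fun x => (congrFun h x).symm)
  · intro h
    exact absurd (mem_univ _) h

theorem epsd_zero {d : ℕ} (f : Fin d → Fin d) (hf : ¬ Function.Injective f) : epsd f = 0 := by
  unfold epsd
  refine Finset.sum_eq_zero fun π _ => if_neg ?_
  rintro rfl
  exact hf π.injective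

theorem sum_epsd {d : ℕ} (F : (Fin d → Fin d) → ℝ) :
    ∑ g : Fin d → Fin d, ((epsd g : ℤ) : ℝ) * F g =
      ∑ π : Equiv.Perm (Fin d), (((Equiv.Perm.sign π : ℤˣ) : ℤ) : ℝ) * F ⇑π := by
  have h1 : ∀ g : Fin d → Fin d, ((epsd g : ℤ) : ℝ) * F g =
      ∑ π : Equiv.Perm (Fin d), if g = ⇑π then (((Equiv.Perm.sign π : ℤˣ) : ℤ) : ℝ) * F g
        else 0 := by
    intro g
    unfold epsd
    rw [Int.cast_sum, Finset.sum_mul]
    refine Finset.sum_congr rfl fun π _ => ?_
    split_ifs <;> simp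
  rw [Finset.sum_congr rfl fun g _ => h1 g, Finset.sum_comm]
  refine Finset.sum_congr rfl fun π _ => ?_
  rw [Finset.sum_ite_eq' univ (⇑π) (fun g => (((Equiv.Perm.sign π : ℤˣ) : ℤ) : ℝ) * F g),
    if_pos (mem_univ _)]

/-- expansion of the determinant of a matrix with the columns `c` -/
theorem sum_epsd_mul {d : ℕ} (A : Md d) (c : Fin d → Fin d) :
    ∑ g : Fin d → Fin d, ((epsd g : ℤ) : ℝ) * ∏ i, A (g i) (c i) =
      A.det * ((epsd c : ℤ) : ℝ) := by
  rw [sum_epsd (fun g => ∏ i, A (g i) (c i))]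
  have h1 : ∑ π : Equiv.Perm (Fin d), (((Equiv.Perm.sign π : ℤˣ) : ℤ) : ℝ) *
      ∏ i, A (π i) (c i) = (A.submatrix id c).det := by
    rw [Matrix.det_apply']
    rfl
  rw [h1]
  by_cases hc : Function.Injective c
  · have hb : Function.Bijective c := Finite.injective_iff_bijective.mp hc
    have h2 : c = ⇑(Equiv.ofBijective c hb) := rfl
    rw [h2, Matrix.det_permute', epsd_perm, mul_comm]
  · rw [epsd_zero c hc, Int.cast_zero, mul_zero]
    simp only [Function.Injective] at hc
    push Not at hc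
    obtain ⟨i, j, hij, hne⟩ := hc
    refine Matrix.det_zero_of_column_eq hne fun k => ?_
    rw [Matrix.submatrix_apply, Matrix.submatrix_apply, hij]

/-! ### One pair -/

/-- The other half-edges of the vertex. -/
abbrev oth {d : ℕ} (p q : Fin d) : Finset (Fin d) := (univ.erase p).erase q

theorem prod_oth {d : ℕ} {p q : Fin d} (hpq : p ≠ q) (f : Fin d → ℝ) :
    ∏ i, f i = f p * (f q * ∏ i ∈ oth p q, f i) := by
  rw [oth, Finset.mul_prod_erase _ _ (Finset.mem_erase.mpr ⟨hpq.symm, mem_univ q⟩),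
    Finset.mul_prod_erase _ _ (mem_univ p)]

theorem card_oth {d : ℕ} {p q : Fin d} (hpq : p ≠ q) : (oth p q).card = d - 2 := by
  rw [oth, Finset.card_erase_of_mem (Finset.mem_erase.mpr ⟨hpq.symm, mem_univ q⟩),
    Finset.card_erase_of_mem (mem_univ p), Finset.card_univ, Fintype.card_fin]
  rfl

open Classical in
/-- The term of one pair. -/
noncomputable def tm {d : ℕ} (p q : Fin d) (X : Md d) (α β : Fin d × Fin d)
    (z : (Fin d → Fin d) × (Fin d → Fin d)) : ℝ :=
  if (z.1 p = α.1 ∧ z.2 p = α.2) ∧ (z.1 q = β.1 ∧ z.2 q = β.2) then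
    ((epsd z.1 : ℤ) : ℝ) * ((epsd z.2 : ℤ) : ℝ) * ∏ i ∈ oth p q, X (z.1 i) (z.2 i) else 0

/-- The matrix of one pair. -/
noncomputable def rp {d : ℕ} (p q : Fin d) (X : Md d) :
    Matrix (Fin d × Fin d) (Fin d × Fin d) ℝ :=
  fun α β => ∑ z, tm p q X α β z

theorem rp_smul {d : ℕ} {p q : Fin d} (hpq : p ≠ q) (c : ℝ) (X : Md d) :
    rp p q (c • X) = c ^ (d - 2) • rp p q X := by
  funext α β
  rw [Matrix.smul_apply, smul_eq_mul]
  simp only [rp]
  rw [Finset.mul_sum]
  refine Finset.sum_congr rfl fun z _ => ?_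
  simp only [tm]
  split_ifs
  · simp only [Matrix.smul_apply, smul_eq_mul]
    rw [Finset.prod_mul_distrib, Finset.prod_const, card_oth hpq]
    ring
  · rw [mul_zero]

/-- Left multiplication. -/
def lm {d : ℕ} (X : Md d) : Matrix (Fin d × Fin d) (Fin d × Fin d) ℝ :=
  fun a b => if a.2 = b.2 then X a.1 b.1 else 0

theorem lm_mul {d : ℕ} (X Y : Md d) : lm X * lm Y = lm (X * Y) := by
  funext a b
  rw [Matrix.mul_apply, Fintype.sum_prod_type]
  simp only [lm, Matrix.mul_apply]
  by_cases h : a.2 = b.2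
  · simp [h]
  · simp only [h, if_false]
    apply Finset.sum_eq_zero
    intro i _
    apply Finset.sum_eq_zero
    intro j _
    by_cases h1 : a.2 = j
    · have h2 : j ≠ b.2 := fun h2 => h (h1.trans h2)
      simp [h2]
    · simp [h1]

theorem lm_one {d : ℕ} : lm (1 : Md d) = 1 := by
  funext a b
  simp only [lm, Matrix.one_apply]
  rcases a with ⟨a1, a2⟩
  rcases b with ⟨b1, b2⟩
  by_cases h1 : a1 = b1 <;> by_cases h2 : a2 = b2 <;> simp [h1, h2]

/-- sum over the first map, with the second map fixed -/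
noncomputable def s1 {d : ℕ} (p q : Fin d) (X : Md d) (α1 β1 : Fin d) (h : Fin d → Fin d) : ℝ :=
  ∑ g : Fin d → Fin d, if g p = α1 ∧ g q = β1 then
    ((epsd g : ℤ) : ℝ) * ∏ i ∈ oth p q, X (g i) (h i) else 0

theorem rp_eq {d : ℕ} (p q : Fin d) (X : Md d) (α β : Fin d × Fin d) :
    rp p q X α β = ∑ h : Fin d → Fin d, if h p = α.2 ∧ h q = β.2 then
      ((epsd h : ℤ) : ℝ) * s1 p q X α.1 β.1 h else 0 := by
  simp only [rp]
  rw [Fintype.sum_prod_type, Finset.sum_comm]
  refine Finset.sum_congr rfl fun h _ => ?_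
  by_cases hh : h p = α.2 ∧ h q = β.2
  · rw [if_pos hh, s1, Finset.mul_sum]
    refine Finset.sum_congr rfl fun g _ => ?_
    simp only [tm]
    by_cases hg : g p = α.1 ∧ g q = β.1
    · rw [if_pos ⟨⟨hg.1, hh.1⟩, ⟨hg.2, hh.2⟩⟩, if_pos hg]
      ring
    · rw [if_neg (fun hc => hg ⟨hc.1.1, hc.2.1⟩), if_neg hg, mul_zero]
  · rw [if_neg hh]
    refine Finset.sum_eq_zero fun g _ => ?_
    simp only [tm]
    rw [if_neg (fun hc => hh ⟨hc.1.2, hc.2.2⟩)]

/-- replacing two values -/
def upd {d : ℕ} (p q : Fin d) (h : Fin d → Fin d) (c e : Fin d) : Fin d → Fin d :=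
  Function.update (Function.update h q e) p c

theorem upd_p {d : ℕ} {p q : Fin d} (h : Fin d → Fin d) (c e : Fin d) : upd p q h c e p = c := by
  simp [upd]

theorem upd_q {d : ℕ} {p q : Fin d} (hpq : p ≠ q) (h : Fin d → Fin d) (c e : Fin d) :
    upd p q h c e q = e := by
  simp [upd, Function.update_of_ne hpq.symm]

theorem upd_oth {d : ℕ} {p q : Fin d} (h : Fin d → Fin d) (c e : Fin d) {i : Fin d}
    (hi : i ∈ oth p q) : upd p q h c e i = h i := by
  rw [oth, Finset.mem_erase, Finset.mem_erase] at hi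
  simp [upd, Function.update_of_ne hi.2.1, Function.update_of_ne hi.1]

/-- the key identity: both legs contracted with `X` -/
theorem s1_det {d : ℕ} {p q : Fin d} (hpq : p ≠ q) (X : Md d) (h : Fin d → Fin d) (c e : Fin d) :
    ∑ α1, ∑ β1, X α1 c * X β1 e * s1 p q X α1 β1 h = X.det * ((epsd (upd p q h c e) : ℤ) : ℝ) := by
  rw [← sum_epsd_mul]
  simp only [s1, Finset.mul_sum]
  have e1 : ∀ α1 : Fin d, ∑ β1 : Fin d, ∑ g : Fin d → Fin d, X α1 c * X β1 e *
      (if g p = α1 ∧ g q = β1 then ((epsd g : ℤ) : ℝ) * ∏ i ∈ oth p q, X (g i) (h i) else 0) =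
      ∑ g : Fin d → Fin d, ∑ β1 : Fin d, X α1 c * X β1 e *
      (if g p = α1 ∧ g q = β1 then ((epsd g : ℤ) : ℝ) * ∏ i ∈ oth p q, X (g i) (h i) else 0) :=
    fun α1 => Finset.sum_comm
  rw [Finset.sum_congr rfl fun α1 _ => e1 α1, Finset.sum_comm]
  refine Finset.sum_congr rfl fun g _ => ?_
  rw [Finset.sum_eq_single (g p)]
  · rw [Finset.sum_eq_single (g q)]
    · rw [if_pos ⟨rfl, rfl⟩, prod_oth hpq (fun i => X (g i) (upd p q h c e i)), upd_p, upd_q hpq]
      have e2 : ∏ i ∈ oth p q, X (g i) (upd p q h c e i) = ∏ i ∈ oth p q, X (g i) (h i) :=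
        Finset.prod_congr rfl fun i hi => by rw [upd_oth h c e hi]
      rw [e2]
      ring
    · intro b _ hb
      rw [if_neg (fun hc => hb hc.2.symm), mul_zero]
    · intro hh; exact absurd (mem_univ _) hh
  · intro b _ hb
    refine Finset.sum_eq_zero fun b' _ => ?_
    rw [if_neg (fun hc => hb hc.1.symm), mul_zero]
  · intro hh; exact absurd (mem_univ _) hh

/-- one leg contracted, `X` orthogonal -/
theorem s1_half {d : ℕ} {p q : Fin d} (hpq : p ≠ q) (X : Md d) (hX : X * X.transpose = 1)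
    (h : Fin d → Fin d) (a e : Fin d) :
    ∑ β1, s1 p q X a β1 h * X β1 e =
      X.det * ∑ c, X a c * ((epsd (upd p q h c e) : ℤ) : ℝ) := by
  have h1 : X.det * ∑ c, X a c * ((epsd (upd p q h c e) : ℤ) : ℝ) =
      ∑ c, X a c * ∑ α1, ∑ β1, X α1 c * X β1 e * s1 p q X α1 β1 h := by
    rw [Finset.mul_sum]
    refine Finset.sum_congr rfl fun c _ => ?_
    rw [s1_det hpq]
    ring
  rw [h1]
  have h2 : ∑ c, X a c * ∑ α1, ∑ β1, X α1 c * X β1 e * s1 p q X α1 β1 h =
      ∑ α1, (∑ c, X a c * X α1 c) * ∑ β1, X β1 e * s1 p q X α1 β1 h := by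
    simp only [Finset.mul_sum, Finset.sum_mul]
    rw [Finset.sum_comm]
    refine Finset.sum_congr rfl fun α1 _ => ?_
    rw [Finset.sum_comm]
    refine Finset.sum_congr rfl fun β1 _ => ?_
    refine Finset.sum_congr rfl fun c _ => ?_
    ring
  rw [h2]
  have h3 : ∀ α1, (∑ c, X a c * X α1 c) = if a = α1 then 1 else 0 := by
    intro α1
    have := congrFun (congrFun hX a) α1
    rw [Matrix.mul_apply, Matrix.one_apply] at this
    exact this
  simp only [h3, ite_mul, one_mul, zero_mul]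
  rw [Finset.sum_ite_eq univ a, if_pos (mem_univ _)]
  exact Finset.sum_congr rfl fun β1 _ => mul_comm _ _

theorem s1_one {d : ℕ} {p q : Fin d} (hpq : p ≠ q) (h : Fin d → Fin d) (c e : Fin d) :
    s1 p q (1 : Md d) c e h = ((epsd (upd p q h c e) : ℤ) : ℝ) := by
  have h1 := s1_half hpq (1 : Md d) (by rw [Matrix.transpose_one, mul_one]) h c e
  rw [Matrix.det_one, one_mul] at h1
  simp only [Matrix.one_apply, mul_ite, mul_one, mul_zero, ite_mul, one_mul, zero_mul] at h1
  rw [Finset.sum_ite_eq' univ e, if_pos (mem_univ _), Finset.sum_ite_eq univ c,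
    if_pos (mem_univ _)] at h1
  exact h1

theorem rp_conj {d : ℕ} {p q : Fin d} (hpq : p ≠ q) (X : Md d) (hX : X * X.transpose = 1) :
    rp p q X * lm X = X.det • (lm X * rp p q 1) := by
  funext a b
  rcases a with ⟨a1, a2⟩
  rcases b with ⟨b1, b2⟩
  rw [Matrix.smul_apply, smul_eq_mul, Matrix.mul_apply, Matrix.mul_apply, Fintype.sum_prod_type,
    Fintype.sum_prod_type]
  have hl : ∀ c1 : Fin d, ∑ c2 : Fin d, rp p q X (a1, a2) (c1, c2) * lm X (c1, c2) (b1, b2) =
      rp p q X (a1, a2) (c1, b2) * X c1 b1 := by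
    intro c1
    rw [Finset.sum_eq_single b2]
    · simp [lm]
    · intro c2 _ hc
      simp [lm, hc]
    · intro hc
      exact absurd (mem_univ _) hc
  have hr : ∀ c1 : Fin d, ∑ c2 : Fin d, lm X (a1, a2) (c1, c2) * rp p q 1 (c1, c2) (b1, b2) =
      X a1 c1 * rp p q 1 (c1, a2) (b1, b2) := by
    intro c1
    rw [Finset.sum_eq_single a2]
    · simp [lm]
    · intro c2 _ hc
      simp [lm, Ne.symm hc]
    · intro hc
      exact absurd (mem_univ _) hc
  rw [Finset.sum_congr rfl (fun c1 _ => hl c1), Finset.sum_congr rfl (fun c1 _ => hr c1)]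
  simp only [rp_eq, Finset.sum_mul, Finset.mul_sum]
  rw [Finset.sum_comm]
  conv_rhs => rw [Finset.sum_comm]
  refine Finset.sum_congr rfl fun h _ => ?_
  by_cases hh : h p = a2 ∧ h q = b2
  · simp only [if_pos hh, s1_one hpq]
    have h1 := s1_half hpq X hX h a1 b1
    have h2 : ∑ x, ((epsd h : ℤ) : ℝ) * s1 p q X a1 x h * X x b1 =
        ((epsd h : ℤ) : ℝ) * ∑ β1, s1 p q X a1 β1 h * X β1 b1 := by
      rw [Finset.mul_sum]
      exact Finset.sum_congr rfl fun x _ => by ring
    rw [h2, h1, Finset.mul_sum, Finset.mul_sum]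
    exact Finset.sum_congr rfl fun x _ => by ring
  · simp only [if_neg hh, zero_mul, mul_zero]

/-- The matrix `D`. -/
def DD (d : ℕ) : Matrix (Fin d × Fin d) (Fin d × Fin d) ℝ :=
  fun a b => if a.1 = a.2 ∧ b.1 = b.2 then 1 else 0

/-- The transposition. -/
def FF (d : ℕ) : Matrix (Fin d × Fin d) (Fin d × Fin d) ℝ :=
  fun a b => if a.1 = b.2 ∧ a.2 = b.1 then 1 else 0

theorem exists_perm2 {d : ℕ} {a b a' b' : Fin d} (h : a ≠ b) (h' : a' ≠ b') :
    ∃ π : Equiv.Perm (Fin d), π a = a' ∧ π b = b' := by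
  refine ⟨(Equiv.swap (Equiv.swap a a' b) b') * (Equiv.swap a a'), ?_, ?_⟩
  · rw [Equiv.Perm.mul_apply, Equiv.swap_apply_left]
    refine Equiv.swap_apply_of_ne_of_ne ?_ h'
    intro hc
    have h2 : Equiv.swap a a' a = Equiv.swap a a' b := by rw [Equiv.swap_apply_left]; exact hc
    exact h ((Equiv.swap a a').injective h2)
  · rw [Equiv.Perm.mul_apply, Equiv.swap_apply_left]

open Classical in
/-- number of permutations with two prescribed values -/
noncomputable def NN {d : ℕ} (p q a b : Fin d) : ℕ :=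
  (univ.filter (fun π : Equiv.Perm (Fin d) => π p = a ∧ π q = b)).card

theorem NN_eq {d : ℕ} (p q : Fin d) {a b a' b' : Fin d} (h : a ≠ b) (h' : a' ≠ b') :
    NN p q a b = NN p q a' b' := by
  classical
  obtain ⟨ρ, h1, h2⟩ := exists_perm2 h h'
  unfold NN
  refine Finset.card_bij (fun π _ => ρ * π) ?_ ?_ ?_
  · intro π hπ
    rw [Finset.mem_filter] at hπ ⊢
    exact ⟨mem_univ _, by rw [Equiv.Perm.mul_apply, hπ.2.1, h1],
      by rw [Equiv.Perm.mul_apply, hπ.2.2, h2]⟩
  · intro π _ π' _ hh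
    exact mul_left_cancel hh
  · intro π hπ
    rw [Finset.mem_filter] at hπ
    refine ⟨ρ⁻¹ * π, ?_, by rw [mul_inv_cancel_left]⟩
    rw [Finset.mem_filter]
    refine ⟨mem_univ _, ?_, ?_⟩
    · rw [Equiv.Perm.mul_apply, hπ.2.1, ← h1]
      simp
    · rw [Equiv.Perm.mul_apply, hπ.2.2, ← h2]
      simp

theorem NN_card {d : ℕ} {p q : Fin d} (hpq : p ≠ q) :
    (d : ℝ) * ((d : ℝ) - 1) * (NN p q p q : ℝ) = (d.factorial : ℝ) := by
  classical
  have h1 : (univ : Finset (Equiv.Perm (Fin d))).card =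
      ∑ z ∈ (univ : Finset (Fin d × Fin d)).filter (fun z => z.1 ≠ z.2), NN p q z.1 z.2 := by
    rw [Finset.card_eq_sum_card_fiberwise (f := fun π : Equiv.Perm (Fin d) => (π p, π q))
      (t := (univ : Finset (Fin d × Fin d)).filter (fun z => z.1 ≠ z.2))]
    · refine Finset.sum_congr rfl fun z _ => ?_
      unfold NN
      congr 1
      ext π
      simp only [Finset.mem_filter, Prod.ext_iff]
    · intro π _
      simp only [Finset.coe_filter, Set.mem_ofPred_eq, Finset.mem_univ, true_and]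
      exact fun hc => hpq (π.injective hc)
  have h2 : ∀ z ∈ (univ : Finset (Fin d × Fin d)).filter (fun z => z.1 ≠ z.2),
      NN p q z.1 z.2 = NN p q p q := by
    intro z hz
    exact NN_eq p q (Finset.mem_filter.mp hz).2 hpq
  rw [Finset.sum_congr rfl h2, Finset.sum_const, smul_eq_mul, Finset.card_univ,
    Fintype.card_perm, Fintype.card_fin] at h1
  have h3 : ((univ : Finset (Fin d × Fin d)).filter (fun z => z.1 ≠ z.2)).card = d * d - d := by
    have := Finset.offDiag_card (univ : Finset (Fin d))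
    rw [Finset.card_univ, Fintype.card_fin] at this
    rw [← this]
    congr 1
    ext z
    simp [Finset.mem_offDiag]
  rw [h3] at h1
  have h4 : d ≤ d * d := Nat.le_mul_self d
  rw [h1, Nat.cast_mul, Nat.cast_sub h4, Nat.cast_mul]
  ring

theorem rp_one {d : ℕ} {p q : Fin d} (hpq : p ≠ q) :
    rp p q (1 : Md d) = (NN p q p q : ℝ) • (DD d - FF d) := by
  classical
  funext α β
  rcases α with ⟨c, a⟩
  rcases β with ⟨e, b⟩
  rw [Matrix.smul_apply, Matrix.sub_apply, smul_eq_mul, rp_eq]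
  simp only [s1_one hpq, DD, FF]
  have h1 : ∀ h : Fin d → Fin d, (if h p = a ∧ h q = b then ((epsd h : ℤ) : ℝ) *
      ((epsd (upd p q h c e) : ℤ) : ℝ) else 0) = ((epsd h : ℤ) : ℝ) * (if h p = a ∧ h q = b then
        ((epsd (upd p q h c e) : ℤ) : ℝ) else 0) := by
    intro h
    split_ifs <;> simp
  rw [Finset.sum_congr rfl fun h _ => h1 h, sum_epsd (fun h => if h p = a ∧ h q = b then
        ((epsd (upd p q h c e) : ℤ) : ℝ) else 0)]
  -- the value at a permutation
  have hval : ∀ π : Equiv.Perm (Fin d), π p = a → π q = b →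
      (((Equiv.Perm.sign π : ℤˣ) : ℤ) : ℝ) * ((epsd (upd p q ⇑π c e) : ℤ) : ℝ) =
        (if c = a ∧ e = b then 1 else 0) - (if c = b ∧ a = e then 1 else 0) := by
    intro π hp hq
    have hab : a ≠ b := by rw [← hp, ← hq]; exact fun hc => hpq (π.injective hc)
    by_cases c1 : c = a ∧ e = b
    · obtain ⟨rfl, rfl⟩ := c1
      have h2 : upd p q ⇑π c e = ⇑π := by
        funext i
        by_cases hi : i = p
        · subst hi; rw [upd_p, hp]
        · by_cases hi' : i = q
          · subst hi'; rw [upd_q hpq, hq]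
          · exact upd_oth _ _ _ (Finset.mem_erase.mpr ⟨hi', Finset.mem_erase.mpr ⟨hi, mem_univ _⟩⟩)
      rw [h2, epsd_perm, if_pos ⟨rfl, rfl⟩, if_neg (fun hc => hab hc.1), sub_zero]
      rcases Int.units_eq_one_or (Equiv.Perm.sign π) with h3 | h3 <;> rw [h3] <;> norm_num
    · by_cases c2 : c = b ∧ a = e
      · obtain ⟨rfl, rfl⟩ := c2
        have h2 : upd p q ⇑π c a = ⇑(π * Equiv.swap p q) := by
          funext i
          by_cases hi : i = p
          · subst hi; rw [upd_p, Equiv.Perm.mul_apply, Equiv.swap_apply_left, hq]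
          · by_cases hi' : i = q
            · subst hi'; rw [upd_q hpq, Equiv.Perm.mul_apply, Equiv.swap_apply_right, hp]
            · rw [Equiv.Perm.mul_apply, Equiv.swap_apply_of_ne_of_ne hi hi']
              exact upd_oth _ _ _
                (Finset.mem_erase.mpr ⟨hi', Finset.mem_erase.mpr ⟨hi, mem_univ _⟩⟩)
        rw [h2, epsd_perm, if_neg c1, if_pos ⟨rfl, rfl⟩, zero_sub, Equiv.Perm.sign_mul,
          Equiv.Perm.sign_swap hpq]
        rcases Int.units_eq_one_or (Equiv.Perm.sign π) with h3 | h3 <;> rw [h3] <;> norm_num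
      · rw [if_neg c1, if_neg c2, sub_zero, epsd_zero, Int.cast_zero, mul_zero]
        intro hinj
        -- `c` and `e` are values at `p`, `q`
        have key : ∀ x : Fin d, (upd p q ⇑π c e x = c → x = p) ∧ (upd p q ⇑π c e x = e → x = q) :=
          fun x => ⟨fun hx => hinj (by rw [hx, upd_p]), fun hx => hinj (by rw [hx, upd_q hpq])⟩
        have k1 : c = a ∨ c = b := by
          by_contra hcon
          push Not at hcon
          obtain ⟨y, hy⟩ := π.surjective c
          have hy1 : y ≠ p := by rintro rfl; exact hcon.1 (by rw [← hy, hp])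
          have hy2 : y ≠ q := by rintro rfl; exact hcon.2 (by rw [← hy, hq])
          have h3 : upd p q ⇑π c e y = c := by
            rw [upd_oth _ _ _ (Finset.mem_erase.mpr ⟨hy2, Finset.mem_erase.mpr ⟨hy1, mem_univ _⟩⟩),
              hy]
          exact hy1 ((key y).1 h3)
        have k2 : e = a ∨ e = b := by
          by_contra hcon
          push Not at hcon
          obtain ⟨y, hy⟩ := π.surjective e
          have hy1 : y ≠ p := by rintro rfl; exact hcon.1 (by rw [← hy, hp])
          have hy2 : y ≠ q := by rintro rfl; exact hcon.2 (by rw [← hy, hq])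
          have h3 : upd p q ⇑π c e y = e := by
            rw [upd_oth _ _ _ (Finset.mem_erase.mpr ⟨hy2, Finset.mem_erase.mpr ⟨hy1, mem_univ _⟩⟩),
              hy]
          exact hy2 ((key y).2 h3)
        have k3 : c ≠ e := by
          intro hce
          have h4 := (key p).2 (by rw [upd_p, hce])
          exact hpq h4
        rcases k1 with rfl | rfl
        · rcases k2 with rfl | rfl
          · exact k3 rfl
          · exact c1 ⟨rfl, rfl⟩
        · rcases k2 with rfl | rfl
          · exact c2 ⟨rfl, rfl⟩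
          · exact k3 rfl
  have hsum : ∀ π : Equiv.Perm (Fin d), (((Equiv.Perm.sign π : ℤˣ) : ℤ) : ℝ) *
      (if π p = a ∧ π q = b then ((epsd (upd p q ⇑π c e) : ℤ) : ℝ) else 0) =
      if π p = a ∧ π q = b then
        ((if c = a ∧ e = b then (1 : ℝ) else 0) - (if c = b ∧ a = e then 1 else 0)) else 0 := by
    intro π
    by_cases hc : π p = a ∧ π q = b
    · rw [if_pos hc, if_pos hc]
      exact hval π hc.1 hc.2
    · rw [if_neg hc, if_neg hc, mul_zero]
  rw [Finset.sum_congr rfl fun π _ => hsum π, ← Finset.sum_filter, Finset.sum_const, nsmul_eq_mul]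
  by_cases hab : a = b
  · subst hab
    have h6 : (if c = a ∧ e = a then (1 : ℝ) else 0) - (if c = a ∧ a = e then 1 else 0) = 0 := by
      by_cases h7 : c = a <;> by_cases h8 : e = a
      · simp [h7, h8]
      · simp [h7, h8, Ne.symm h8]
      · simp [h7]
      · simp [h7]
    rw [h6, mul_zero, mul_zero]
  · have h9 := NN_eq p q hab hpq
    unfold NN at h9
    rw [h9]
    rfl

theorem DD_sq {d : ℕ} : DD d * DD d = (d : ℝ) • DD d := by
  funext a b
  rcases a with ⟨a1, a2⟩
  rcases b with ⟨b1, b2⟩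
  rw [Matrix.mul_apply, Fintype.sum_prod_type]
  simp only [DD, Matrix.smul_apply, smul_eq_mul]
  by_cases h1 : a1 = a2 <;> by_cases h2 : b1 = b2 <;> simp [h1, h2]

theorem FF_DD {d : ℕ} : FF d * DD d = DD d := by
  funext a b
  rcases a with ⟨a1, a2⟩
  rcases b with ⟨b1, b2⟩
  rw [Matrix.mul_apply, Finset.sum_eq_single (a2, a1)]
  · simp only [DD, FF, and_self, if_true, one_mul]
    by_cases h1 : a1 = a2 <;> by_cases h2 : b1 = b2 <;> simp [h1, h2, eq_comm]
  · rintro ⟨c1, c2⟩ _ hc
    simp only [FF]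
    rw [if_neg, zero_mul]
    rintro ⟨h1, h2⟩
    exact hc (by rw [h1, h2])
  · intro hh; exact absurd (mem_univ _) hh

theorem DD_FF {d : ℕ} : DD d * FF d = DD d := by
  funext a b
  rcases a with ⟨a1, a2⟩
  rcases b with ⟨b1, b2⟩
  rw [Matrix.mul_apply, Finset.sum_eq_single (b2, b1)]
  · simp only [DD, FF, and_self, if_true, mul_one]
    by_cases h1 : a1 = a2 <;> by_cases h2 : b1 = b2 <;> simp [h1, h2, eq_comm]
  · rintro ⟨c1, c2⟩ _ hc
    simp only [FF]
    rw [if_neg, mul_zero]
    rintro ⟨h1, h2⟩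
    exact hc (by rw [h1, h2])
  · intro hh; exact absurd (mem_univ _) hh

theorem FF_sq {d : ℕ} : FF d * FF d = 1 := by
  funext a b
  rcases a with ⟨a1, a2⟩
  rcases b with ⟨b1, b2⟩
  rw [Matrix.mul_apply, Finset.sum_eq_single (a2, a1)]
  · simp only [FF, and_self, if_true, one_mul, Matrix.one_apply, Prod.mk.injEq]
    by_cases h1 : a1 = b1 <;> by_cases h2 : a2 = b2 <;> simp [h1, h2]
  · rintro ⟨c1, c2⟩ _ hc
    simp only [FF]
    rw [if_neg, zero_mul]
    rintro ⟨h1, h2⟩
    exact hc (by rw [h1, h2])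
  · intro hh; exact absurd (mem_univ _) hh

theorem DD_trace {d : ℕ} : (DD d).trace = d := by
  rw [Matrix.trace, Fintype.sum_prod_type]
  simp [Matrix.diag, DD]

theorem FF_trace {d : ℕ} : (FF d).trace = d := by
  have h : ∀ a b : Fin d, (if a = b ∧ b = a then (1 : ℝ) else 0) = if a = b then 1 else 0 := by
    intro a b
    by_cases h : a = b
    · simp [h]
    · simp [h]
  rw [Matrix.trace, Fintype.sum_prod_type]
  simp [Matrix.diag, FF, h]

theorem DF_pow {d : ℕ} (n : ℕ) : ∃ a : ℝ, d * a = ((d : ℝ) - 1) ^ n - (-1) ^ n ∧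
    (DD d - FF d) ^ n = a • DD d + (-1 : ℝ) ^ n • FF d ^ n := by
  induction n with
  | zero => exact ⟨0, by norm_num, by simp⟩
  | succ n ih =>
    obtain ⟨a, ha, h⟩ := ih
    refine ⟨((d : ℝ) - 1) * a + (-1) ^ n, by rw [pow_succ, pow_succ]; linear_combination ((d : ℝ) - 1) * ha, ?_⟩
    have hFD : ∀ k : ℕ, FF d ^ k * DD d = DD d := by
      intro k
      induction k with
      | zero => simp
      | succ k ih => rw [pow_succ, mul_assoc, FF_DD, ih]
    rw [pow_succ, h, add_mul, mul_sub, mul_sub, smul_mul_assoc, smul_mul_assoc,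
      smul_mul_assoc, smul_mul_assoc, DD_sq, DD_FF, hFD, ← pow_succ]
    rw [pow_succ (-1 : ℝ) n]
    module

theorem DF_trace {d : ℕ} (n : ℕ) : ((DD d - FF d) ^ n).trace =
    ((d : ℝ) - 1) ^ n + ((d : ℝ) * (d - 1) / 2 + (-1) ^ n * ((d : ℝ) * (d + 1) / 2 - 1)) := by
  obtain ⟨a, ha, h⟩ := DF_pow (d := d) n
  rw [h, Matrix.trace_add, Matrix.trace_smul, Matrix.trace_smul, DD_trace]
  simp only [smul_eq_mul]
  rcases Nat.even_or_odd n with he | ho
  · have hF : FF d ^ n = 1 := by
      obtain ⟨r, hr⟩ := he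
      rw [hr, ← two_mul, pow_mul, pow_two, FF_sq, one_pow]
    rw [hF, Matrix.trace_one, he.neg_one_pow]
    rw [he.neg_one_pow] at ha
    simp only [Fintype.card_prod, Fintype.card_fin, Nat.cast_mul]
    linear_combination ha
  · have hF : FF d ^ n = FF d := by
      obtain ⟨r, hr⟩ := ho
      rw [hr, pow_succ, pow_mul, pow_two, FF_sq, one_pow, one_mul]
    rw [hF, FF_trace, ho.neg_one_pow]
    rw [ho.neg_one_pow] at ha
    linear_combination ha

theorem rp_trace {d : ℕ} {p q : Fin d} (hpq : p ≠ q) (X : Md d) (hX : X * X.transpose = 1)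
    (n : ℕ) : ((rp p q X) ^ n).trace = (X.det * (NN p q p q : ℝ)) ^ n *
      (((d : ℝ) - 1) ^ n + ((d : ℝ) * (d - 1) / 2 + (-1) ^ n * ((d : ℝ) * (d + 1) / 2 - 1))) := by
  have hinv : lm X * lm X.transpose = 1 := by rw [lm_mul, hX, lm_one]
  have hinv' : lm X.transpose * lm X = 1 := mul_eq_one_comm.1 hinv
  have e1 : rp p q X = (X.det * (NN p q p q : ℝ)) • (lm X * (DD d - FF d) * lm X.transpose) := by
    have h1 := rp_conj hpq X hX
    rw [rp_one hpq] at h1
    calc rp p q X = (rp p q X * lm X) * lm X.transpose := by rw [mul_assoc, hinv, mul_one]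
      _ = _ := by
        rw [h1, mul_smul_comm, smul_smul, smul_mul_assoc]
  have e2 : (lm X * (DD d - FF d) * lm X.transpose) ^ n =
      lm X * (DD d - FF d) ^ n * lm X.transpose := by
    induction n with
    | zero => rw [pow_zero, pow_zero, mul_one, hinv]
    | succ n ih =>
      rw [pow_succ, ih, pow_succ]
      calc lm X * (DD d - FF d) ^ n * lm X.transpose * (lm X * (DD d - FF d) * lm X.transpose)
          = lm X * (DD d - FF d) ^ n * (lm X.transpose * lm X) * (DD d - FF d) *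
              lm X.transpose := by
            simp only [mul_assoc]
        _ = lm X * ((DD d - FF d) ^ n * (DD d - FF d)) * lm X.transpose := by
            rw [hinv', mul_one]
            simp only [mul_assoc]
  rw [e1, smul_pow, e2, Matrix.trace_smul, smul_eq_mul, Matrix.trace_mul_comm, ← mul_assoc, hinv',
    one_mul, DF_trace]

/-! ### The vertex matrix at a product -/

theorem RW_pt {d K : ℕ} {J : Type} [Fintype J] [DecidableEq J] (φ : Fin K × Fin 2 ≃ J)
    (O : Fin K → Md d) (p q : Fin d) :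
    RW (wJ d J) p q (pt φ O) = tens φ (fun k => rp p q ((Real.sqrt d)⁻¹ • O k)) := by
  classical
  funext a b
  have h1 : RW (wJ d J) p q (pt φ O) a b = ∑ f : Fin d → J → Fin d,
      if f p = a ∧ f q = b then wJ d J f * ∏ i ∈ oth p q, pt φ O (f i) else 0 := by
    unfold RW
    rw [Finset.sum_filter]
    refine Finset.sum_congr rfl fun f _ => ?_
    by_cases hf : f p = a ∧ f q = b
    · rw [if_pos hf, if_pos hf]
    · rw [if_neg hf, if_neg hf]
  have h2 : ∑ f : Fin d → J → Fin d, (if f p = a ∧ f q = b then wJ d J f *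
      ∏ i ∈ oth p q, pt φ O (f i) else 0) = ∑ F : J → (Fin d → Fin d),
      if (fun j => F j p) = a ∧ (fun j => F j q) = b then wJ d J (fun i j => F j i) *
      ∏ i ∈ oth p q, pt φ O (fun j => F j i) else 0 :=
    Fintype.sum_equiv (Equiv.piComm (fun (_ : Fin d) (_ : J) => Fin d)) _ _ (fun f => rfl)
  have h3 : ∀ F : J → (Fin d → Fin d), (if (fun j => F j p) = a ∧ (fun j => F j q) = b then
      wJ d J (fun i j => F j i) * ∏ i ∈ oth p q, pt φ O (fun j => F j i) else 0) =
      ∏ k, tm p q ((Real.sqrt d)⁻¹ • O k) (ee (Fin d) φ a k) (ee (Fin d) φ b k)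
        (ee (Fin d → Fin d) φ F k) := by
    intro F
    have hc : ((fun j => F j p) = a ∧ (fun j => F j q) = b) ↔ ∀ k ∈ (univ : Finset (Fin K)),
        (((ee (Fin d → Fin d) φ F k).1 p = (ee (Fin d) φ a k).1 ∧
          (ee (Fin d → Fin d) φ F k).2 p = (ee (Fin d) φ a k).2) ∧
        ((ee (Fin d → Fin d) φ F k).1 q = (ee (Fin d) φ b k).1 ∧
          (ee (Fin d → Fin d) φ F k).2 q = (ee (Fin d) φ b k).2)) := by
      simp only [ee_apply]
      constructor
      · rintro ⟨rfl, rfl⟩ k _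
        exact ⟨⟨rfl, rfl⟩, ⟨rfl, rfl⟩⟩
      · intro h
        constructor
        · funext j
          obtain ⟨⟨k, t⟩, rfl⟩ := φ.surjective j
          fin_cases t
          · exact (h k (mem_univ _)).1.1
          · exact (h k (mem_univ _)).1.2
        · funext j
          obtain ⟨⟨k, t⟩, rfl⟩ := φ.surjective j
          fin_cases t
          · exact (h k (mem_univ _)).2.1
          · exact (h k (mem_univ _)).2.2
    have e1 : wJ d J (fun i j => F j i) = ∏ k : Fin K, (((epsd (F (φ (k, 0))) : ℤ) : ℝ) *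
        ((epsd (F (φ (k, 1))) : ℤ) : ℝ)) := by
      unfold wJ
      rw [← Equiv.prod_comp φ, Fintype.prod_prod_type]
      refine Finset.prod_congr rfl fun k _ => ?_
      rw [Fin.prod_univ_two]
    have e2 : ∏ i ∈ oth p q, pt φ O (fun j => F j i) = ∏ k : Fin K, ∏ i ∈ oth p q,
        ((Real.sqrt d)⁻¹ • O k) (F (φ (k, 0)) i) (F (φ (k, 1)) i) := by
      unfold pt
      rw [Finset.prod_comm]
      refine Finset.prod_congr rfl fun k _ => Finset.prod_congr rfl fun i _ => ?_
      rw [Matrix.smul_apply, smul_eq_mul, div_eq_mul_inv, mul_comm]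
    by_cases hcc : (fun j => F j p) = a ∧ (fun j => F j q) = b
    · rw [if_pos hcc, e1, e2, ← Finset.prod_mul_distrib]
      refine Finset.prod_congr rfl fun k _ => ?_
      rw [tm, if_pos (hc.mp hcc k (mem_univ _))]
      rfl
    · rw [if_neg hcc]
      symm
      rw [hc] at hcc
      push Not at hcc
      obtain ⟨k, hk, hk2⟩ := hcc
      refine Finset.prod_eq_zero hk ?_
      rw [tm, if_neg]
      rintro ⟨h4, h5⟩
      exact hk2 h4 h5.1 h5.2
  rw [h1, h2, Finset.sum_congr rfl fun F _ => h3 F]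
  exact sum_prod_ee φ (fun k z => tm p q ((Real.sqrt d)⁻¹ • O k) (ee (Fin d) φ a k)
    (ee (Fin d) φ b k) z)

/-- TRP. -/
theorem st_TRP : ST_TRP := by
  intro d hd K J _ _ φ O hO p q hpq k
  rw [RW_pt, tens_pow, tens_trace]
  have hd0 : (0 : ℝ) < d := by exact_mod_cast (by omega : 0 < d)
  have hd1 : (d : ℝ) - 1 ≠ 0 := by
    have : (2 : ℝ) ≤ d := by exact_mod_cast hd
    linarith
  have hs : Real.sqrt d ≠ 0 := (Real.sqrt_pos.mpr hd0).ne'
  have hp : ∀ i, (rp p q ((Real.sqrt d)⁻¹ • O i) ^ (k + 1)).trace =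
      (qd d * (O i).det) ^ (k + 1) * tau d k := by
    intro i
    rw [rp_smul hpq, smul_pow, Matrix.trace_smul, rp_trace hpq _ (hO i), smul_eq_mul]
    have h1 : qd d = ((Real.sqrt d)⁻¹) ^ (d - 2) * (NN p q p q : ℝ) * ((d : ℝ) - 1) := by
      have h2 := NN_card hpq
      obtain ⟨m, rfl⟩ : ∃ m, d = m + 2 := ⟨d - 2, by omega⟩
      unfold qd
      rw [← h2, Nat.add_sub_cancel, inv_pow, pow_add]
      have h3 : Real.sqrt ((m + 2 : ℕ) : ℝ) ^ 2 = ((m + 2 : ℕ) : ℝ) := Real.sq_sqrt hd0.le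
      rw [h3]
      field_simp
    have h4 : ((d : ℝ) - 1) ^ (k + 1) ≠ 0 := pow_ne_zero _ hd1
    rw [h1, tau]
    have h5 : ∀ R : ℝ, ((d : ℝ) - 1) ^ (k + 1) + R =
        ((d : ℝ) - 1) ^ (k + 1) * (1 + R / ((d : ℝ) - 1) ^ (k + 1)) := by
      intro R
      field_simp
    rw [h5, mul_pow, mul_pow, mul_pow, mul_pow]
    ring
  rw [Finset.prod_congr rfl fun i _ => hp i, Finset.prod_mul_distrib, Finset.prod_const,
    Finset.card_univ, Fintype.card_fin, Finset.prod_pow, Finset.prod_mul_distrib,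
    Finset.prod_const, Finset.card_univ, Fintype.card_fin]

end Pool.Agent.Helper85.T6
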